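import Pool.Agent.Q234.PE.All

/-!
# Local approximation on a fixed region: the bond dimension grows faster than every power of `log (1/ε)`

The Hamiltonian is `H_L = - ∑_u Z_u - λ ∑_u X_u X_(u + (1, 0))` on the `L × L` torus, `0 < λ < 1`
(transverse field Ising rings in the rows). For every `L ≥ 1` it has a unique ground state `Ψ_L` and
a gap of at least `2 (1 - λ)`. There are `a, ε₀ > 0` such that every function `g` as in the open problem
satisfies `g (ε, R) ≥ exp (a (log (1/ε))^(1/3))` for every finite region `R` which contains `(0, 0)` and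
`(1, 0)` and every `ε ≤ ε₀`. Already the reduced states on two neighbouring sites need a bond dimension
which grows faster than every power of `log (1/ε)` as `ε → 0`.

Proof: the energy per site of translation invariant vectors is a function of the reduced state on the two
sites, and the energy per site of a PEPS vector of bond dimension `D` is at least the ground energy per
site plus `exp (-C (1 + log D)³)` (EnergyLowerBound).
-/

set_option autoImplicit false

open Pool.Agent.TH235.PP
open Pool.Agent.H4R2 (Tensor redState traceNorm)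

namespace Pool.Agent.Results.MP_0f69bf_mp.FixedRegion

/-- The diagonal entries of the Pauli matrix `Z`. -/
def z (a : Fin 2) : ℂ := if a = 0 then 1 else -1

/-- The interaction `- Z_(0,0) - lam X_(0,0) X_(1,0)` as an operator on the `2 × 2` box: a diagonal
part, and the entry `-lam` for pairs of configurations which differ exactly at `(0,0)` and `(1,0)`. -/
noncomputable def ising (lam : ℝ) : BoxOp 2 2 := fun p q =>
  (if p = q then -(z (p (0, 0))) else 0) -
    if q (0, 0) = p (0, 0) + 1 ∧ q (1, 0) = p (1, 0) + 1 ∧ q (0, 1) = p (0, 1) ∧ q (1, 1) = p (1, 1)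
      then (lam : ℂ) else 0

/-- `g` is a bound as in the open problem for the family `Ψ`: for every finite region `R` and `ε > 0`
some translation invariant tensor `A` of bond dimension at most `g ε R` has a nonzero PEPS vector on
all large tori, and the limit superior of the trace distance between the reduced states on `R` of
`Ψ L` and of this vector is at most `ε`. -/
def IsLocalBound (Ψ : ∀ L : ℕ, (Site L → Fin 2) → ℂ) (g : ℝ → Finset (ℤ × ℤ) → ℝ) : Prop :=
  ∀ (R : Finset (ℤ × ℤ)) (ε : ℝ), 0 < ε → ∃ (D : ℕ) (A : Tensor 2 D), (D : ℝ) ≤ g ε R ∧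
    (∃ L₀ : ℕ, ∀ (L : ℕ) [NeZero L], L₀ ≤ L → Pool.Agent.H4R2.contract A L ≠ 0) ∧
    ∀ ε' : ℝ, ε < ε' → ∃ L₀ : ℕ, ∀ (L : ℕ) [NeZero L], L₀ ≤ L →
      traceNorm (redState R (Ψ L) - redState R (Pool.Agent.H4R2.contract A L)) ≤ ε'

/-- **Theorem.** For a gapped translation invariant nearest neighbour Hamiltonian with unique ground
states, every bound `g` for the local approximation by translation invariant PEPS satisfies
`g (ε, R) ≥ exp (a (log (1/ε))^(1/3))` for each fixed region with two neighbouring sites. -/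
theorem result (lam : ℝ) (h0 : 0 < lam) (h1 : lam < 1) :
    (ising lam).IsHermitian ∧ ∃ Ψ : ∀ L : ℕ, (Site L → Fin 2) → ℂ,
      (∀ (L : ℕ) [NeZero L], normSq (Ψ L) = 1 ∧
        IsGappedGround (ham (ising lam) L) (2 * (1 - lam)) (Ψ L)) ∧
      ∃ a ε₀ : ℝ, 0 < a ∧ 0 < ε₀ ∧ ∀ g : ℝ → Finset (ℤ × ℤ) → ℝ, IsLocalBound Ψ g →
        ∀ R : Finset (ℤ × ℤ), (0, 0) ∈ R → (1, 0) ∈ R → ∀ ε : ℝ, 0 < ε → ε ≤ ε₀ →
          Real.exp (a * Real.log (1 / ε) ^ (1 / 3 : ℝ)) ≤ g ε R := by
  obtain ⟨C, Ψ, E, hC, hK⟩ := Pool.Agent.Q234.PE.All.core lam h0 h1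
  refine ⟨Pool.Agent.Q234.PL.All.ising_herm lam, Ψ, fun L _ => ⟨(hK.1 L).1, (hK.1 L).2.2⟩,
    1 / (4 * C), Real.exp (-(16 * C)), by positivity, Real.exp_pos _, ?_⟩
  intro g hg R hR0 hR1 ε hε0 hε
  have hR : Pool.Agent.Q234.PL.pair ⊆ R := by
    intro x hx
    unfold Pool.Agent.Q234.PL.pair at hx
    rcases Finset.mem_insert.1 hx with h | h
    · rw [h]; exact hR0
    · rw [Finset.mem_singleton.1 h]; exact hR1
  obtain ⟨D, A, hD, hA, hlim⟩ := hg R ε hε0
  have h2 := Pool.Agent.Q234.PE.All.fixed h0 h1 hC hK hR hε0 hε A hA (hlim (2 * ε) (by linarith))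
  refine le_trans ?_ hD
  rcases Nat.eq_zero_or_pos D with hD0 | hD0
  · exfalso
    subst hD0
    obtain ⟨L₀, hL₀⟩ := hA
    have : NeZero (L₀ + 1) := ⟨by omega⟩
    apply hL₀ (L₀ + 1) (by omega)
    funext s
    unfold Pool.Agent.H4R2.contract
    have : IsEmpty (Pool.Agent.H4R2.Site (L₀ + 1) → Fin 0) := ⟨fun f => (f 0).elim0⟩
    rw [Fintype.sum_empty]
    rfl
  · have h3 : (0 : ℝ) < D := by exact_mod_cast hD0
    rw [← Real.exp_log h3]
    exact Real.exp_le_exp.2 h2

end Pool.Agent.Results.MP_0f69bf_mp.FixedRegion
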