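import Pool.Agent.Q234.PL.All
import Pool.Agent.Q234.PL.FL

/-!
# A lower bound for the bond dimension in local approximations of gapped ground states

The Hamiltonian is `H_L = - ∑_u Z_u - λ ∑_u X_u X_(u + (1, 0))` on the `L × L` torus, `0 < λ < 1`
(transverse field Ising rings in the rows). For every `L ≥ 1` it has a unique ground state `Ψ_L` and
a gap of at least `2 (1 - λ)`. For the reduced states on the box `B_n = [0, n)²`, uniformly in
`L ≥ n`, and for all nonzero PEPS vectors `φ` (tensors depending on the site allowed):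

* there is `a > 0` such that `‖ρ_Ψ - ρ_φ‖₁ ≤ ε` on `B_n`, `exp (-a n³) ≤ ε ≤ 1`, forces
  `D ≥ exp (a (log (n/ε))^(1/3))`;
* hence every function `g` as in the open problem has `g(ε, B_n) ≥ exp (a (log (n/ε))^(1/3))`,
  `exp (-a n³) ≤ ε ≤ 1/2`.
-/

set_option autoImplicit false

open Pool.Agent.TH235.PP
open Pool.Agent.H4R2 (Tensor redState traceNorm)

namespace Pool.Agent.Results.MP_0f69bf_mp.LocalLowerBound

/-- The diagonal entries of the Pauli matrix `Z`. -/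
def z (a : Fin 2) : ℂ := if a = 0 then 1 else -1

/-- The interaction `- Z_(0,0) - lam X_(0,0) X_(1,0)` as an operator on the `2 × 2` box: a diagonal
part, and the entry `-lam` for pairs of configurations which differ exactly at `(0,0)` and `(1,0)`. -/
noncomputable def ising (lam : ℝ) : BoxOp 2 2 := fun p q =>
  (if p = q then -(z (p (0, 0))) else 0) -
    if q (0, 0) = p (0, 0) + 1 ∧ q (1, 0) = p (1, 0) + 1 ∧ q (0, 1) = p (0, 1) ∧ q (1, 1) = p (1, 1)
      then (lam : ℂ) else 0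

/-- The box `[0, n)²`. -/
noncomputable def box (n : ℕ) : Finset (ℤ × ℤ) := (Finset.Ico (0 : ℤ) n) ×ˢ (Finset.Ico (0 : ℤ) n)

/-- `g` is a bound as in the open problem for the family `Ψ`: for every finite region `R` and `ε > 0`
some translation invariant tensor `A` of bond dimension at most `g ε R` has a nonzero PEPS vector on
all large tori, and the limit superior of the trace distance between the reduced states on `R` of
`Ψ L` and of this vector is at most `ε`. -/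
def IsLocalBound (Ψ : ∀ L : ℕ, (Site L → Fin 2) → ℂ) (g : ℝ → Finset (ℤ × ℤ) → ℝ) : Prop :=
  ∀ (R : Finset (ℤ × ℤ)) (ε : ℝ), 0 < ε → ∃ (D : ℕ) (A : Tensor 2 D), (D : ℝ) ≤ g ε R ∧
    (∃ L₀ : ℕ, ∀ (L : ℕ) [NeZero L], L₀ ≤ L → Pool.Agent.H4R2.contract A L ≠ 0) ∧
    ∀ ε' : ℝ, ε < ε' → ∃ L₀ : ℕ, ∀ (L : ℕ) [NeZero L], L₀ ≤ L →
      traceNorm (redState R (Ψ L) - redState R (Pool.Agent.H4R2.contract A L)) ≤ ε'

theorem log_half {n ε : ℝ} (hn : 4 ≤ n) (hε0 : 0 < ε) (hε : ε ≤ 1 / 2) :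
    Real.log (n / ε) / 8 ≤ Real.log (n / (2 * ε)) := by
  have h1 : 8 ≤ n / ε := by
    rw [le_div_iff₀ hε0]
    linarith
  have h2 : n / (2 * ε) = (n / ε) / 2 := by
    field_simp
  have h3 : Real.log 8 = 3 * Real.log 2 := by
    rw [show (8 : ℝ) = 2 ^ 3 by norm_num, Real.log_pow]
    push_cast
    ring
  have h4 := Real.log_le_log (by norm_num) h1
  have h5 : 0 < Real.log 2 := Real.log_pos one_lt_two
  have h6 : Real.log (n / (2 * ε)) = Real.log (n / ε) - Real.log 2 := by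
    rw [h2, Real.log_div (by positivity) (by norm_num)]
  rw [h6]
  linarith

/-- **Theorem.** Lower bounds for the bond dimension of PEPS vectors which are locally close to the
ground states of a gapped translation invariant nearest neighbour Hamiltonian. -/
theorem result (lam : ℝ) (h0 : 0 < lam) (h1 : lam < 1) :
    (ising lam).IsHermitian ∧ ∃ Ψ : ∀ L : ℕ, (Site L → Fin 2) → ℂ,
      (∀ (L : ℕ) [NeZero L], normSq (Ψ L) = 1 ∧
        IsGappedGround (ham (ising lam) L) (2 * (1 - lam)) (Ψ L)) ∧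
      ∃ a : ℝ, 0 < a ∧ ∃ n₀ : ℕ, ∀ n : ℕ, n₀ ≤ n → ∀ ε : ℝ, Real.exp (-(a * (n : ℝ) ^ 3)) ≤ ε →
        (ε ≤ 1 → ∀ (L : ℕ) [NeZero L], n ≤ L → ∀ (D : ℕ) (φ : (Site L → Fin 2) → ℂ),
          IsPEPS D φ → φ ≠ 0 →
          traceNorm (redState (box n) (Ψ L) - redState (box n) φ) ≤ ε →
          Real.exp (a * Real.log (n / ε) ^ (1 / 3 : ℝ)) ≤ D) ∧
        (ε ≤ 1 / 2 → ∀ g : ℝ → Finset (ℤ × ℤ) → ℝ, IsLocalBound Ψ g →
          Real.exp (a * Real.log (n / ε) ^ (1 / 3 : ℝ)) ≤ g ε (box n)) := by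
  refine ⟨Pool.Agent.Q234.PL.All.ising_herm lam, ?_⟩
  obtain ⟨C, Ψ, hC, hK⟩ := Pool.Agent.Q234.PL.All.core lam h0 h1
  obtain ⟨a, ha, n₀, hp⟩ := Pool.Agent.Q234.PL.FU.localPrecise hC hK
    Pool.Agent.Q234.PL.All.pepsKernelAt Pool.Agent.Q234.PL.All.localBound
  refine ⟨Ψ, hK.1, ?_⟩
  refine ⟨a / 8, by positivity, max n₀ 4, fun n hn ε hε => ?_⟩
  have hn0 : n₀ ≤ n := (le_max_left _ _).trans hn
  have hn4 : (4 : ℝ) ≤ n := by exact_mod_cast (le_max_right _ _).trans hn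
  have hε0 : 0 < ε := (Real.exp_pos _).trans_le hε
  have hε' : Real.exp (-(a * (n : ℝ) ^ 3)) ≤ ε := by
    refine le_trans (Real.exp_le_exp.2 ?_) hε
    have : 0 ≤ a * (n : ℝ) ^ 3 := by positivity
    linarith
  have hlog : ∀ ε : ℝ, 0 < ε → ε ≤ 1 → 0 ≤ Real.log (n / ε) := by
    intro ε h2 h3
    apply Real.log_nonneg
    rw [le_div_iff₀ h2]
    linarith
  refine ⟨fun hε1 L _ hnL D φ hφ hφ0 hd => ?_, fun hε1 g hg => ?_⟩
  · refine le_trans (Real.exp_le_exp.2 ?_) (hp n hn0 L hnL ε hε' hε1 D φ hφ hφ0 hd)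
    have : 0 ≤ Real.log (n / ε) ^ (1 / 3 : ℝ) := Real.rpow_nonneg (hlog ε hε0 hε1) _
    nlinarith
  · obtain ⟨D, A, hD, ⟨L₁, hL₁⟩, hlim⟩ := hg (box n) ε hε0
    obtain ⟨L₂, hL₂⟩ := hlim (2 * ε) (by linarith)
    set L := max (max L₁ L₂) (max n 1) with hL
    have hLn : n ≤ L := (le_max_left _ _).trans (le_max_right _ _)
    have hL1 : 1 ≤ L := (le_max_right _ _).trans (le_max_right _ _)
    have : NeZero L := ⟨by omega⟩
    have h4 := hp n hn0 L hLn (2 * ε) (by linarith) (by linarith) D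
      (Pool.Agent.H4R2.contract A L) (Pool.Agent.Q234.PL.FL.isPEPS_of A)
      (hL₁ L ((le_max_left _ _).trans (le_max_left _ _)))
      (hL₂ L ((le_max_right _ _).trans (le_max_left _ _)))
    refine le_trans (le_trans (Real.exp_le_exp.2 ?_) h4) hD
    have h5 : (1 / 8 : ℝ) * Real.log (n / ε) ^ (1 / 3 : ℝ) ≤
        Real.log (n / (2 * ε)) ^ (1 / 3 : ℝ) := by
      have e : (1 / 8 : ℝ) ≤ (1 / 8) ^ (1 / 3 : ℝ) := by
        rw [show (1 / 8 : ℝ) = (1 / 2) ^ (3 : ℝ) by norm_num, ← Real.rpow_mul (by norm_num)]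
        norm_num
      have h6 := hlog ε hε0 (by linarith)
      calc (1 / 8 : ℝ) * Real.log (n / ε) ^ (1 / 3 : ℝ)
          ≤ (1 / 8) ^ (1 / 3 : ℝ) * Real.log (n / ε) ^ (1 / 3 : ℝ) :=
            mul_le_mul_of_nonneg_right e (Real.rpow_nonneg h6 _)
        _ = (1 / 8 * Real.log (n / ε)) ^ (1 / 3 : ℝ) := (Real.mul_rpow (by norm_num) h6).symm
        _ ≤ Real.log (n / (2 * ε)) ^ (1 / 3 : ℝ) := by
            apply Real.rpow_le_rpow (by positivity) _ (by norm_num)
            have := log_half hn4 hε0 hε1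
            linarith
    have h7 := mul_le_mul_of_nonneg_left h5 ha.le
    linarith

end Pool.Agent.Results.MP_0f69bf_mp.LocalLowerBound
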