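import Pool.Agent.Q234.PL.All

/-!
# Reduced states of PEPS vectors of small bond dimension are almost orthogonal to the ground state

The Hamiltonian is `H_L = - ∑_u Z_u - λ ∑_u X_u X_(u + (1, 0))` on the `L × L` torus, `0 < λ < 1`
(transverse field Ising rings in the rows). For every `L ≥ 1` it has a unique ground state `Ψ_L` and
a gap of at least `2 (1 - λ)`. For every `δ > 0` there is `a > 0` such that, uniformly in `L ≥ n`, every
nonzero PEPS vector `φ` (tensors depending on the site) of bond dimension `D < exp (a (log n)^(1/3))`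
has a reduced state on the box `B_n = [0, n)²` with `‖ρ_Ψ - ρ_φ‖₁ ≥ 2 (1 - exp (-n^(1-δ)))`: the trace
distance is almost the largest possible one.
-/

set_option autoImplicit false

open Pool.Agent.TH235.PP
open Pool.Agent.H4R2 (redState traceNorm)

namespace Pool.Agent.Results.MP_0f69bf_mp.LocalOrthogonality

/-- The diagonal entries of the Pauli matrix `Z`. -/
def z (a : Fin 2) : ℂ := if a = 0 then 1 else -1

/-- The interaction `- Z_(0,0) - lam X_(0,0) X_(1,0)` as an operator on the `2 × 2` box: a diagonal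
part, and the entry `-lam` for pairs of configurations which differ exactly at `(0,0)` and `(1,0)`. -/
noncomputable def ising (lam : ℝ) : BoxOp 2 2 := fun p q =>
  (if p = q then -(z (p (0, 0))) else 0) -
    if q (0, 0) = p (0, 0) + 1 ∧ q (1, 0) = p (1, 0) + 1 ∧ q (0, 1) = p (0, 1) ∧ q (1, 1) = p (1, 1)
      then (lam : ℂ) else 0

/-- The box `[0, n)²`. -/
noncomputable def box (n : ℕ) : Finset (ℤ × ℤ) := (Finset.Ico (0 : ℤ) n) ×ˢ (Finset.Ico (0 : ℤ) n)

/-- **Theorem.** On large boxes the reduced states of PEPS vectors of bond dimension below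
`exp (a (log n)^(1/3))` are almost orthogonal to the reduced ground state of a gapped translation
invariant nearest neighbour Hamiltonian. -/
theorem result (lam : ℝ) (h0 : 0 < lam) (h1 : lam < 1) :
    (ising lam).IsHermitian ∧ ∃ Ψ : ∀ L : ℕ, (Site L → Fin 2) → ℂ,
      (∀ (L : ℕ) [NeZero L], normSq (Ψ L) = 1 ∧
        IsGappedGround (ham (ising lam) L) (2 * (1 - lam)) (Ψ L)) ∧
      ∀ δ : ℝ, 0 < δ → ∃ a : ℝ, 0 < a ∧ ∃ n₀ : ℕ, ∀ n : ℕ, n₀ ≤ n →
        ∀ (L : ℕ) [NeZero L], n ≤ L → ∀ (D : ℕ) (φ : (Site L → Fin 2) → ℂ), IsPEPS D φ → φ ≠ 0 →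
          (D : ℝ) < Real.exp (a * Real.log n ^ (1 / 3 : ℝ)) →
          2 * (1 - Real.exp (-(n : ℝ) ^ (1 - δ))) ≤
            traceNorm (redState (box n) (Ψ L) - redState (box n) φ) := by
  refine ⟨Pool.Agent.Q234.PL.All.ising_herm lam, ?_⟩
  obtain ⟨C, Ψ, hC, hK⟩ := Pool.Agent.Q234.PL.All.core lam h0 h1
  exact ⟨Ψ, hK.1, fun δ hδ => Pool.Agent.Q234.PL.FU.localStrong hC hK
    Pool.Agent.Q234.PL.All.pepsKernelAt Pool.Agent.Q234.PL.All.localBound δ hδ⟩

end Pool.Agent.Results.MP_0f69bf_mp.LocalOrthogonality
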