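import Pool.Agent.Q234.KG.All2

/-!
# Local approximation with polynomial bond dimension near decorated product Hamiltonians

`a` is a Hermitian `d × d` matrix with a simple lowest eigenvalue and the gap `γ`; `u` is any function of
modulus one of the configuration in an `m × m` box, and `U_L(σ) = ∏_v u(σ on the box at v)` the diagonal
unitary on the `L × L` torus. For `u = 1` the unperturbed Hamiltonian is `∑_v a_v`; the Hamiltonians of the
cluster state and of the fixed points of the (group cohomology) symmetry protected phases are of the form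
`U_L (∑_v a_v) U_Lᴴ`.

For EVERY translation invariant perturbation `k` of finite range with sufficiently small entries the ground
states of `U_L (∑_v a_v) U_Lᴴ + ∑_v τ_v(k)` have the local approximation property of the open problem, with
a bond dimension polynomial in `1/ε` for every fixed region: positive answers to Q1 and Q2 for these
interactions.
-/

set_option autoImplicit false

open scoped BigOperators
open Finset Pool.Agent.TH235.PP
open Pool.Agent.H4R2 (Tensor traceNorm redState)

namespace Pool.Agent.Results.MP_0f69bf_mp.NearDecoratedProducts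

/-- the interaction which is the matrix `a` at one site -/
def oneSite {d : ℕ} (a : Matrix (Fin d) (Fin d) ℂ) : BoxOp d 1 := fun p q => a (p (0, 0)) (q (0, 0))

/-- the phase `U_L(σ) = ∏_v u(σ on the m × m box at v)` -/
noncomputable def phase {d m L : ℕ} [NeZero L] (u : (Fin m × Fin m → Fin d) → ℂ)
    (σ : Site L → Fin d) : ℂ := ∏ v : Site L, u fun x => σ (sh v x)

/-- The conclusion of the open problem with a bond dimension polynomial in `1/ε`: for every finite region `R`
there are `c`, `q` such that for `0 < ε ≤ 1` some translation invariant tensor `A` of bond dimension at most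
`c (1/ε)^q` has on all tori of side `L ≥ c (1/ε)^q` a nonzero vector whose reduced state on `R` is within `ε`
of that of `Ψ L` in trace norm. -/
def PolyLocal {d : ℕ} (Ψ : ∀ L : ℕ, (Site L → Fin d) → ℂ) : Prop :=
  ∀ R : Finset (ℤ × ℤ), ∃ c q : ℕ, ∀ ε : ℝ, 0 < ε → ε ≤ 1 → ∃ (D : ℕ) (A : Tensor d D),
    (D : ℝ) ≤ c * (1 / ε) ^ q ∧ ∀ (L : ℕ) [NeZero L], (c : ℝ) * (1 / ε) ^ q ≤ L →
      Pool.Agent.H4R2.contract A L ≠ 0 ∧
      traceNorm (redState R (Ψ L) - redState R (Pool.Agent.H4R2.contract A L)) ≤ ε

/-- Let `d ≥ 2`, let the Hermitian matrix `a` have a simple lowest eigenvalue and the gap `γ`, and let `u` have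
modulus one. The Hamiltonian `U_L (∑_v a_v) U_Lᴴ` is the sum of the translates of one interaction `h₀` on the box
of side `2 m + 1`, and for every range `n` there is `δ > 0` such that for every Hermitian `k` on the `n × n` box
with entries at most `δ` there are unit vectors `Ψ L` which span the ground states of `ham h₀ L + ham k L` for
all `L ≥ n + 2 m + 1`, with a gap of at least `γ / 2`, and `Ψ` has the local approximation property
`PolyLocal`. -/
theorem result (d : ℕ) (hd : 2 ≤ d) (a : Matrix (Fin d) (Fin d) ℂ) (γ : ℝ) (f : Fin d → ℂ)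
    (ha : a.IsHermitian) (hγ : 0 < γ) (hf : f ≠ 0) (hg : IsGappedGround a γ f)
    (m : ℕ) (u : (Fin m × Fin m → Fin d) → ℂ) (hu : ∀ p, ‖u p‖ = 1) :
    ∃ h₀ : BoxOp d (1 + 2 * m), h₀.IsHermitian ∧
      (∀ (L : ℕ) [NeZero L], 2 * m + 2 ≤ L → ∀ s t : Site L → Fin d, ham h₀ L s t =
        phase u s * ham (oneSite a) L s t * (starRingEnd ℂ) (phase u t)) ∧
      ∀ n : ℕ, 1 ≤ n → ∃ δ : ℝ, 0 < δ ∧ ∀ k : BoxOp d n, k.IsHermitian → (∀ p q, ‖k p q‖ ≤ δ) →
        ∃ Ψ : ∀ L : ℕ, (Site L → Fin d) → ℂ,
          (∀ (L : ℕ) [NeZero L], n + 2 * m + 1 ≤ L → normSq (Ψ L) = 1 ∧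
            IsGappedGround (ham h₀ L + ham k L) (γ / 2) (Ψ L)) ∧ PolyLocal Ψ := by
  have h1 : oneSite a = Pool.Agent.Q234.KG.site1 a 1 := by
    funext p q
    unfold oneSite Pool.Agent.Q234.KG.site1
    rw [Fintype.prod_prod_type]
    simp
  have hsH : (Pool.Agent.Q234.KG.site1 a 1).IsHermitian := by
    rw [← h1]
    ext p q
    exact ha.apply _ _
  have hD := Pool.Agent.Q193.KG.DC.main d 1 m u (Pool.Agent.Q234.KG.site1 a 1) le_rfl hu
  refine ⟨Pool.Agent.Q234.KG.deco u (Pool.Agent.Q234.KG.site1 a 1), hD.2.2 hsH, ?_, ?_⟩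
  · intro L _ hL s t
    rw [h1]
    exact (hD.1 L (by omega) s t).symm
  · exact Pool.Agent.Q234.KG.localD d a γ f hd ha hγ hf hg m u hu

end Pool.Agent.Results.MP_0f69bf_mp.NearDecoratedProducts
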